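import Pool.Agent.Q182.Interp

/-!
# MP_28fd2b_an: weak interpolation sets of order k for uniquely ergodic systems have density < 1/k
-/

set_option autoImplicit false

open MeasureTheory Filter Topology

namespace Pool.Agent.Results.MP_28fd2b_an.DensityBelow

universe u

/-- `T` has exactly one invariant Borel probability measure. -/
def UniquelyErgodic {X : Type u} [MeasurableSpace X] (T : X → X) : Prop :=
  ∃ μ : Measure X, (IsProbabilityMeasure μ ∧ μ.map T = μ) ∧
    ∀ ν : Measure X, IsProbabilityMeasure ν → ν.map T = ν → ν = μ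

/-- `S` is a weak interpolation set of order `k` for uniquely ergodic systems: for every function `f`
on `S` with values in `{0, …, k-1}` there are a compact metric space `X`, a continuous uniquely
ergodic map `T` of `X`, a transitive point `x` and a continuous `F : X → ℂ` with `F (T^n x) = f n`
for all `n ∈ S`. -/
def WeakInterpolationSet (k : ℕ) (S : Set ℕ) : Prop :=
  ∀ f : ℕ → ℕ, (∀ n ∈ S, f n < k) →
    ∃ (X : Type u) (_ : MetricSpace X) (_ : CompactSpace X) (_ : MeasurableSpace X)
      (_ : BorelSpace X) (T : X → X) (x : X) (F : X → ℂ),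
      Continuous T ∧ UniquelyErgodic T ∧ Dense (Set.range fun n : ℕ => T^[n] x) ∧
      Continuous F ∧ ∀ n ∈ S, F (T^[n] x) = (f n : ℂ)

/-- `d` is the upper Banach density of `S`: the limit of `sup_m |S ∩ {m+1, …, m+N}| / N`. -/
def IsUpperBanachDensity (S : Set ℕ) (d : ℝ) : Prop :=
  Tendsto (fun N : ℕ => ⨆ m : ℕ, ((S ∩ Set.Ioc m (m + N)).ncard : ℝ) / N) atTop (𝓝 d)

/-! ### The density -/

noncomputable def cnt (S : Set ℕ) (m N : ℕ) : ℕ := (S ∩ Set.Ioc m (m + N)).ncard

lemma fin (S : Set ℕ) (m N : ℕ) : (S ∩ Set.Ioc m (m + N)).Finite :=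
  (Set.finite_Ioc _ _).subset Set.inter_subset_right

lemma cnt_le (S : Set ℕ) (m N : ℕ) : cnt S m N ≤ N := by
  have := Set.ncard_le_ncard (Set.inter_subset_right : S ∩ Set.Ioc m (m + N) ⊆ _)
    (Set.finite_Ioc _ _)
  refine this.trans ?_
  rw [← Finset.coe_Ioc, Set.ncard_coe_finset, Nat.card_Ioc]
  omega

lemma cnt_add (S : Set ℕ) (m a b : ℕ) : cnt S m (a + b) = cnt S m a + cnt S (m + a) b := by
  unfold cnt
  rw [← Set.ncard_union_eq _ (fin S m a) (fin S (m + a) b)]
  · congr 1
    rw [← Set.inter_union_distrib_left, ← add_assoc,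
      Set.Ioc_union_Ioc_eq_Ioc (Nat.le_add_right _ _) (Nat.le_add_right _ _)]
  · rw [Set.disjoint_left]
    rintro n ⟨_, h1⟩ ⟨_, h2⟩
    rw [Set.mem_Ioc] at h1 h2
    omega

noncomputable def sup (S : Set ℕ) (N : ℕ) : ℝ := ⨆ m : ℕ, (cnt S m N : ℝ)

lemma bdd (S : Set ℕ) (N : ℕ) : BddAbove (Set.range fun m : ℕ => (cnt S m N : ℝ)) :=
  ⟨N, by rintro _ ⟨m, rfl⟩; exact Nat.cast_le.2 (cnt_le S m N)⟩

lemma sub (S : Set ℕ) : Subadditive (sup S) := by
  intro a b
  refine ciSup_le fun m => ?_
  rw [cnt_add]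
  push_cast
  exact add_le_add (le_ciSup (bdd S a) m) (le_ciSup (bdd S b) (m + a))

lemma bdd2 (S : Set ℕ) : BddBelow (Set.range fun n : ℕ => sup S n / n) := by
  refine ⟨0, ?_⟩
  rintro _ ⟨n, rfl⟩
  have : 0 ≤ sup S n := (Nat.cast_nonneg _).trans (le_ciSup (bdd S n) 0)
  positivity

lemma isDensity (S : Set ℕ) : IsUpperBanachDensity S (sub S).lim := by
  unfold IsUpperBanachDensity
  refine ((sub S).tendsto_lim (bdd2 S)).congr fun N => ?_
  unfold sup cnt
  simp only [div_eq_mul_inv]
  rw [Real.iSup_mul_of_nonneg (inv_nonneg.2 (Nat.cast_nonneg N))]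

/-- windows -/
lemma windows (S : Set ℕ) (k : ℕ) (hk : 2 ≤ k) (h : 1 / (k : ℝ) ≤ (sub S).lim) (M n : ℕ)
    (hn : 1 ≤ n) : ∃ m, M ≤ m ∧ n ≤ k * cnt S m n := by
  have hk0 : (0 : ℝ) < k := by exact_mod_cast (by omega : 0 < k)
  have h1 : ∀ n, 1 ≤ n → ∃ m, n ≤ k * cnt S m n := by
    intro n hn
    have h2 : 1 / (k : ℝ) ≤ sup S n / n := h.trans ((sub S).lim_le_div (bdd2 S) (by omega))
    have hn0 : (0 : ℝ) < n := by exact_mod_cast hn
    rw [div_le_div_iff₀ hk0 hn0, one_mul] at h2
    have h3 : sup S n - 1 / (2 * k) < sup S n := by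
      have : (0 : ℝ) < 1 / (2 * k) := by positivity
      linarith
    obtain ⟨m, hm⟩ := exists_lt_of_lt_ciSup h3
    refine ⟨m, ?_⟩
    have h4 : (n : ℝ) < (k * cnt S m n : ℕ) + 1 := by
      push_cast
      have h5 : sup S n < cnt S m n + 1 / (2 * k) := by linarith
      have h6 : (n : ℝ) < (cnt S m n + 1 / (2 * k)) * k :=
        h2.trans_lt (mul_lt_mul_of_pos_right h5 hk0)
      have h7 : ((cnt S m n : ℝ) + 1 / (2 * k)) * k = k * cnt S m n + 1 / 2 := by
        field_simp
      rw [h7] at h6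
      linarith
    have h5 : n < k * cnt S m n + 1 := by exact_mod_cast h4
    omega
  by_contra hcon
  push Not at hcon
  have hpos : 0 < (k * M + 1) * n := Nat.mul_pos (by omega) (by omega)
  obtain ⟨m, hm⟩ := h1 (M + (k * M + 1) * n) (by omega)
  have h2 : ∀ q m, M ≤ m → k * cnt S m (q * n) ≤ q * (n - 1) := by
    intro q
    induction q with
    | zero =>
      intro m _
      have := cnt_le S m (0 * n)
      simp at this ⊢
      omega
    | succ q ih =>
      intro m hMm
      have h3 : (q + 1) * n = n + q * n := by ring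
      rw [h3, cnt_add, mul_add]
      have h4 := ih (m + n) (by omega)
      have h5 := hcon m hMm
      have h6 : (q + 1) * (n - 1) = (n - 1) + q * (n - 1) := by ring
      rw [h6]
      omega
  rw [cnt_add] at hm
  have h3 := h2 (k * M + 1) (m + M) (by omega)
  have h4 : k * cnt S m M ≤ k * M := Nat.mul_le_mul_left k (cnt_le S m M)
  rw [mul_add] at hm
  have h5 : (k * M + 1) * (n - 1) + (k * M + 1) = (k * M + 1) * n := by
    obtain ⟨n', rfl⟩ : ∃ n', n = n' + 1 := ⟨n - 1, by omega⟩
    rw [Nat.add_sub_cancel]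
    ring
  omega

lemma arith1 (c g k D : ℝ) (hk : 0 < k) (hg : 0 < g + 1)
    (h : c * ((g + 1) * (1 / (2 * k))) ≤ (g + 1) * D) : c ≤ 2 * k * D := by
  have h4 : c * ((g + 1) * (1 / (2 * k))) * (2 * k) ≤ (g + 1) * D * (2 * k) :=
    mul_le_mul_of_nonneg_right h (by positivity)
  have h5 : c * ((g + 1) * (1 / (2 * k))) * (2 * k) = (g + 1) * c := by
    field_simp
  have h6 : (g + 1) * D * (2 * k) = (g + 1) * (2 * k * D) := by ring
  rw [h5, h6] at h4
  exact le_of_mul_le_mul_left h4 hg

open Pool.Agent.Q182.Interp in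
lemma main (k : ℕ) (hk : 2 ≤ k) (S : Set ℕ) (h : 1 / (k : ℝ) ≤ (sub S).lim) :
    ¬ WeakInterpolationSet.{u} k S := by
  classical
  intro hW
  have hk0 : (0 : ℝ) < k := by exact_mod_cast (by omega : 0 < k)
  have hwin := windows S k hk h
  choose c hc1 hc2 using fun (M n : ℕ) => hwin M (n + 1) (by omega)
  -- the windows `[m j, m j + j]`
  let a : ℕ → ℕ := fun j => Nat.rec (c 0 0) (fun j aj => c (aj + j + 1) (j + 1)) j
  have ha : ∀ j, a (j + 1) = c (a j + j + 1) (j + 1) := fun j => rfl
  let m : ℕ → ℕ := fun j => a j + 1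
  have hdis : ∀ j, m j + j < m (j + 1) := by
    intro j
    have := hc1 (a j + j + 1) (j + 1)
    show a j + 1 + j < a (j + 1) + 1
    rw [ha]
    omega
  have hdens0 : ∀ j, j + 1 ≤ k * cnt S (a j) (j + 1) := by
    intro j
    cases j with
    | zero => exact hc2 0 0
    | succ j => exact hc2 (a j + j + 1) (j + 1)
  have hdens : ∀ j, j + 1 ≤ k * ((Finset.range (j + 1)).filter (fun i => m j + i ∈ S)).card := by
    intro j
    refine (hdens0 j).trans (Nat.mul_le_mul_left k ?_)
    unfold cnt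
    rw [← Set.ncard_coe_finset]
    refine le_of_eq (Set.ncard_congr (fun n _ => n - m j) ?_ ?_ ?_)
    · rintro n ⟨hn, hn1, hn2⟩
      simp only [Finset.coe_filter, Finset.mem_range]
      have e : m j = a j + 1 := rfl
      refine ⟨by omega, ?_⟩
      have : m j + (n - m j) = n := by omega
      rwa [this]
    · rintro n n' ⟨_, h1, _⟩ ⟨_, h2, _⟩ hnn
      have e : m j = a j + 1 := rfl
      omega
    · rintro i hi
      simp only [Finset.coe_filter, Finset.mem_range] at hi
      obtain ⟨h1, h2⟩ := hi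
      have e : m j = a j + 1 := rfl
      exact ⟨m j + i, ⟨h2, by omega, by omega⟩, by omega⟩
  have hmono : StrictMono m := strictMono_nat_of_lt_succ fun j => by have := hdis j; omega
  have huniqj : ∀ n j j', m j ≤ n → n ≤ m j + j → m j' ≤ n → n ≤ m j' + j' → j = j' := by
    have : ∀ n j j', m j ≤ n → n ≤ m j + j → m j' ≤ n → n ≤ m j' + j' → ¬ j < j' := by
      intro n j j' h1 h2 h3 h4 hlt
      have h5 : m (j + 1) ≤ m j' := hmono.monotone hlt
      have h6 := hdis j
      omega
    intro n j j' h1 h2 h3 h4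
    rcases lt_trichotomy j j' with h | h | h
    · exact absurd h (this n j j' h1 h2 h3 h4)
    · exact h
    · exact absurd h (this n j' j h3 h4 h1 h2)
  clear_value m
  -- the function which is constant on the windows
  let f : ℕ → ℕ := fun n => if h : ∃ j, m j ≤ n ∧ n ≤ m j + j then h.choose % k else 0
  have hf : ∀ j n, m j ≤ n → n ≤ m j + j → f n = j % k := by
    intro j n h1 h2
    have h : ∃ j, m j ≤ n ∧ n ≤ m j + j := ⟨j, h1, h2⟩
    have hj : h.choose = j := huniqj n _ _ h.choose_spec.1 h.choose_spec.2 h1 h2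
    show (if h : ∃ j, m j ≤ n ∧ n ≤ m j + j then h.choose % k else 0) = _
    rw [dif_pos h, hj]
  have hfk : ∀ n, f n < k := by
    intro n
    show (if h : ∃ j, m j ≤ n ∧ n ≤ m j + j then h.choose % k else 0) < k
    split_ifs
    · exact Nat.mod_lt _ (by omega)
    · omega
  clear_value f
  obtain ⟨X, _, _, _, _, T, x, F, hT, hue, _, hF, hF2⟩ := hW f fun n _ => hfk n
  obtain ⟨μ, ⟨hμ, _⟩, huniq⟩ := hue
  -- the bump functions
  let G : ℕ → X → ℝ := fun i y => max 0 (1 - 2 * ‖F y - (i : ℂ)‖)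
  have hGc : ∀ i, Continuous (G i) := fun i =>
    continuous_const.max (continuous_const.sub (continuous_const.mul (hF.sub continuous_const).norm))
  have hG0 : ∀ i y, 0 ≤ G i y := fun i y => le_max_left _ _
  have hG1 : ∀ i y, G i y ≤ 1 := fun i y =>
    max_le zero_le_one (by have := norm_nonneg (F y - (i : ℂ)); linarith)
  have hGi : ∀ i, Integrable (G i) μ := fun i =>
    Integrable.of_bound (hGc i).aestronglyMeasurable 1
      (Eventually.of_forall fun y => by rw [Real.norm_of_nonneg (hG0 i y)]; exact hG1 i y)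
  have hGone : ∀ i j n, j % k = i → m j ≤ n → n ≤ m j + j → n ∈ S → G i (T^[n] x) = 1 := by
    intro i j n hji h1 h2 hn
    have h3 := hF2 n hn
    rw [hf j n h1 h2, hji] at h3
    show max 0 (1 - 2 * ‖F (T^[n] x) - (i : ℂ)‖) = 1
    rw [h3, sub_self, norm_zero, mul_zero, sub_zero, max_eq_right zero_le_one]
  -- averages along the windows of the class `i`
  let t : ℕ → ℕ → ℕ := fun i q => k * q + i
  have ht : ∀ i, Tendsto (t i) atTop atTop := by
    intro i
    refine tendsto_atTop_mono (fun j => ?_) tendsto_id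
    show j ≤ k * j + i
    nlinarith
  have htk : ∀ i < k, ∀ q, t i q % k = i := by
    intro i hi q
    show (k * q + i) % k = i
    rw [Nat.mul_add_mod, Nat.mod_eq_of_lt hi]
  have havg : ∀ i, Tendsto (fun q => (∑ r ∈ Finset.range (t i q + 1), G i (T^[m (t i q) + r] x)) /
      ((t i q : ℝ) + 1)) atTop (𝓝 (∫ y, G i y ∂μ)) := fun i =>
    avg_tendsto atTop T hT μ hμ huniq x (fun q => m (t i q)) (t i) (ht i) (G i) (hGc i)
  have hsplit : ∀ i < k, ∀ q, (1 : ℝ) / k + (∑ r ∈ (Finset.range (t i q + 1)).filter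
      (fun r => m (t i q) + r ∉ S), G i (T^[m (t i q) + r] x)) / ((t i q : ℝ) + 1) ≤
      (∑ r ∈ Finset.range (t i q + 1), G i (T^[m (t i q) + r] x)) / ((t i q : ℝ) + 1) := by
    intro i hi q
    have h1 : (0 : ℝ) < (t i q : ℝ) + 1 := by positivity
    rw [← Finset.sum_filter_add_sum_filter_not (Finset.range (t i q + 1))
      (fun r => m (t i q) + r ∈ S), add_div]
    refine add_le_add ?_ le_rfl
    have h2 : ∑ r ∈ (Finset.range (t i q + 1)).filter (fun r => m (t i q) + r ∈ S),
        G i (T^[m (t i q) + r] x) =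
        ((Finset.range (t i q + 1)).filter (fun r => m (t i q) + r ∈ S)).card := by
      rw [Finset.card_eq_sum_ones]
      push_cast
      refine Finset.sum_congr rfl fun r hr => ?_
      obtain ⟨h3, h4⟩ := Finset.mem_filter.1 hr
      rw [Finset.mem_range] at h3
      exact hGone i (t i q) _ (htk i hi q) (by omega) (by omega) h4
    rw [h2, div_le_div_iff₀ hk0 h1, one_mul, mul_comm]
    exact_mod_cast hdens (t i q)
  have hint : ∀ i < k, 1 / (k : ℝ) ≤ ∫ y, G i y ∂μ := by
    intro i hi
    refine ge_of_tendsto (havg i) (Eventually.of_forall fun q => ?_)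
    refine le_trans ?_ (hsplit i hi q)
    have : 0 ≤ (∑ r ∈ (Finset.range (t i q + 1)).filter
      (fun r => m (t i q) + r ∉ S), G i (T^[m (t i q) + r] x)) / ((t i q : ℝ) + 1) :=
      div_nonneg (Finset.sum_nonneg fun r _ => hG0 i _) (by positivity)
    linarith
  have hsum : ∀ y, ∑ i ∈ Finset.range k, G i y ≤ 1 := by
    intro y
    by_cases hex : ∃ i ∈ Finset.range k, G i y ≠ 0
    · obtain ⟨i, hi, hi0⟩ := hex
      rw [Finset.sum_eq_single_of_mem i hi]
      · exact hG1 i y
      · intro j _ hji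
        by_contra hj0
        have h1 : ∀ l, G l y ≠ 0 → ‖F y - (l : ℂ)‖ < 1 / 2 := by
          intro l hl
          by_contra hcon
          apply hl
          show max 0 (1 - 2 * ‖F y - (l : ℂ)‖) = 0
          exact max_eq_left (by linarith)
        have h2 := h1 i hi0
        have h3 := h1 j hj0
        have h4 : ‖((i : ℂ) - (j : ℂ))‖ < 1 := by
          have : (i : ℂ) - j = (F y - j) - (F y - i) := by ring
          rw [this]
          refine (norm_sub_le _ _).trans_lt ?_
          linarith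
        have h5 : ((i : ℂ) - (j : ℂ)) = (((i : ℤ) - (j : ℤ) : ℤ) : ℂ) := by push_cast; ring
        rw [h5, Complex.norm_intCast] at h4
        have h6 : |(i : ℤ) - (j : ℤ)| < 1 := by exact_mod_cast h4
        rw [Int.abs_lt_one_iff] at h6
        omega
    · push Not at hex
      rw [Finset.sum_eq_zero hex]
      exact zero_le_one
  clear_value G
  have hG0int : ∫ y, G 0 y ∂μ = 1 / k := by
    have h1 : ∑ i ∈ Finset.range k, ∫ y, G i y ∂μ ≤ 1 := by
      rw [← integral_finsetSum _ (fun i _ => hGi i)]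
      calc ∫ y, ∑ i ∈ Finset.range k, G i y ∂μ ≤ ∫ _, (1 : ℝ) ∂μ :=
            integral_mono (integrable_finsetSum _ fun i _ => hGi i) (integrable_const _) hsum
        _ = 1 := by simp
    have h2 : ∑ i ∈ Finset.range k, ∫ y, G i y ∂μ =
        ∫ y, G 0 y ∂μ + ∑ i ∈ (Finset.range k).erase 0, ∫ y, G i y ∂μ :=
      (Finset.add_sum_erase _ _ (Finset.mem_range.2 (by omega))).symm
    have h3 : (((Finset.range k).erase 0).card : ℝ) * (1 / k) ≤
        ∑ i ∈ (Finset.range k).erase 0, ∫ y, G i y ∂μ := by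
      rw [← nsmul_eq_mul]
      refine Finset.card_nsmul_le_sum _ _ _ fun i hi => hint i ?_
      exact Finset.mem_range.1 (Finset.mem_of_mem_erase hi)
    rw [Finset.card_erase_of_mem (Finset.mem_range.2 (by omega)), Finset.card_range,
      Nat.cast_sub (by omega)] at h3
    have h4 := hint 0 (by omega)
    have h5 : ((k : ℝ) - (1 : ℕ)) * (1 / k) = 1 - 1 / k := by
      push_cast
      field_simp
    rw [h5] at h3
    refine le_antisymm ?_ h4
    linarith
  -- a length `g` such that all averages of `G 0` of length `g` are bounded below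
  obtain ⟨g, hg⟩ : ∃ g : ℕ, ∀ n, ((g : ℝ) + 1) * (1 / (2 * k)) ≤
      ∑ i ∈ Finset.range (g + 1), G 0 (T^[n + i] x) := by
    by_contra hcon
    push Not at hcon
    choose n hn using hcon
    have h1 := avg_tendsto atTop T hT μ hμ huniq x n (fun g => g) tendsto_id (G 0) (hGc 0)
    have h2 : ∫ y, G 0 y ∂μ ≤ 1 / (2 * k) := by
      refine le_of_tendsto h1 (Eventually.of_forall fun g => ?_)
      rw [div_le_iff₀ (by positivity), mul_comm]
      exact (hn g).le
    rw [hG0int] at h2
    have h3 : (1 : ℝ) / (2 * k) < 1 / k := by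
      apply one_div_lt_one_div_of_lt hk0
      linarith
    linarith
  -- the rest of the average tends to zero
  let D : ℕ → ℝ := fun q => ∑ r ∈ (Finset.range (t 0 q + 1)).filter
      (fun r => m (t 0 q) + r ∉ S), G 0 (T^[m (t 0 q) + r] x)
  have hD0 : ∀ q, 0 ≤ D q := fun q => Finset.sum_nonneg fun r _ => hG0 0 _
  have hD : Tendsto (fun q => D q / ((t 0 q : ℝ) + 1)) atTop (𝓝 0) := by
    have h1 : Tendsto (fun q => (∑ r ∈ Finset.range (t 0 q + 1), G 0 (T^[m (t 0 q) + r] x)) /
      ((t 0 q : ℝ) + 1) - 1 / k) atTop (𝓝 (1 / k - 1 / k)) := by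
      have := havg 0
      rw [hG0int] at this
      exact this.sub_const _
    rw [sub_self] at h1
    refine squeeze_zero (fun q => div_nonneg (hD0 q) (by positivity)) (fun q => ?_) h1
    have := hsplit 0 (by omega) q
    linarith
  -- the gaps
  let E : ℕ → Finset ℕ := fun q => (Finset.range (t 0 q + 1)).filter
    fun i => ∀ s ∈ S, m (t 0 q) + i ≤ s → m (t 0 q) + i + (g + 1) ≤ s
  let E1 : ℕ → Finset ℕ := fun q => (E q).filter fun i => i + g ≤ t 0 q
  have hE1 : ∀ q, ((E1 q).card : ℝ) * (((g : ℝ) + 1) * (1 / (2 * k))) ≤ (g + 1) * D q := by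
    intro q
    calc ((E1 q).card : ℝ) * (((g : ℝ) + 1) * (1 / (2 * k)))
        ≤ ∑ i ∈ E1 q, ∑ b ∈ Finset.range (g + 1), G 0 (T^[m (t 0 q) + i + b] x) := by
          rw [← nsmul_eq_mul]
          exact Finset.card_nsmul_le_sum _ _ _ fun i _ => hg _
      _ = ∑ b ∈ Finset.range (g + 1), ∑ i ∈ E1 q, G 0 (T^[m (t 0 q) + i + b] x) :=
          Finset.sum_comm
      _ ≤ ∑ b ∈ Finset.range (g + 1), D q := by
          refine Finset.sum_le_sum fun b hb => ?_
          rw [Finset.mem_range] at hb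
          have h1 : ∑ i ∈ E1 q, G 0 (T^[m (t 0 q) + i + b] x) =
              ∑ r ∈ (E1 q).image (fun i => i + b), G 0 (T^[m (t 0 q) + r] x) := by
            rw [Finset.sum_image (fun i _ j _ hij => Nat.add_right_cancel hij)]
            refine Finset.sum_congr rfl fun i _ => ?_
            rw [add_assoc]
          rw [h1]
          refine Finset.sum_le_sum_of_subset_of_nonneg ?_ fun r _ _ => hG0 0 _
          intro r hr
          obtain ⟨i, hi, rfl⟩ := Finset.mem_image.1 hr
          obtain ⟨h2, h3⟩ := Finset.mem_filter.1 hi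
          obtain ⟨h4, h5⟩ := Finset.mem_filter.1 h2
          refine Finset.mem_filter.2 ⟨Finset.mem_range.2 (by omega), fun hS => ?_⟩
          have := h5 _ hS (by omega)
          omega
      _ = (g + 1) * D q := by
          rw [Finset.sum_const, Finset.card_range, nsmul_eq_mul]
          push_cast
          ring
  have hEcard : ∀ q, ((E q).card : ℝ) ≤ g + 2 * k * D q := by
    intro q
    have h1 : (E q).card ≤ g + (E1 q).card := by
      rw [← Finset.card_filter_add_card_filter_not (s := E q) (fun i => i + g ≤ t 0 q), add_comm]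
      refine Nat.add_le_add_right ?_ _
      have h2 : (E q).filter (fun i => ¬ i + g ≤ t 0 q) ⊆ Finset.Ico (t 0 q + 1 - g) (t 0 q + 1) := by
        intro i hi
        obtain ⟨h2, h3⟩ := Finset.mem_filter.1 hi
        obtain ⟨h4, _⟩ := Finset.mem_filter.1 h2
        rw [Finset.mem_range] at h4
        rw [Finset.mem_Ico]
        omega
      refine (Finset.card_le_card h2).trans ?_
      rw [Nat.card_Ico]
      omega
    have h2 := hE1 q
    have h3 : ((E1 q).card : ℝ) ≤ 2 * k * D q :=
      arith1 _ _ _ _ hk0 (by positivity) h2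
    have h4 : ((E q).card : ℝ) ≤ g + (E1 q).card := by exact_mod_cast h1
    linarith
  have hE0 : Tendsto (fun q => ((E q).card : ℝ) / ((t 0 q : ℝ) + 1)) atTop (𝓝 0) := by
    have h1 : Tendsto (fun q => (g : ℝ) * ((t 0 q : ℝ) + 1)⁻¹ + 2 * k * (D q / ((t 0 q : ℝ) + 1)))
        atTop (𝓝 (g * 0 + 2 * k * 0)) := by
      refine Tendsto.add (Tendsto.const_mul _ (tendsto_inv_atTop_zero.comp ?_)) (hD.const_mul _)
      exact tendsto_atTop_add_const_right _ _ (tendsto_natCast_atTop_atTop.comp (ht 0))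
    rw [mul_zero, mul_zero, add_zero] at h1
    refine squeeze_zero (fun q => by positivity) (fun q => ?_) h1
    rw [← div_eq_mul_inv, ← mul_div_assoc, ← add_div]
    exact div_le_div_of_nonneg_right (hEcard q) (by positivity)
  have hinf : S.Infinite := by
    rw [Set.infinite_iff_exists_gt]
    intro M
    obtain ⟨n, hn, hn2⟩ := hwin M 1 le_rfl
    have h1 : cnt S n 1 ≠ 0 := by
      intro h0
      rw [h0] at hn2
      omega
    obtain ⟨s, hs, hs2⟩ := Set.nonempty_of_ncard_ne_zero h1
    rw [Set.mem_Ioc] at hs2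
    exact ⟨s, hs, by omega⟩
  obtain ⟨f', hf2, hf'⟩ := exists_f.{u} S hinf (fun q => m (t 0 q)) (t 0) (fun q => by
      have h1 := hdis (t 0 q)
      have h2 : m (t 0 q + 1) ≤ m (t 0 (q + 1)) := hmono.monotone (by
        show k * q + 0 + 1 ≤ k * (q + 1) + 0
        rw [mul_add]
        omega)
      omega) (ht 0) (g + 1) E (fun q i hi hiE => by
      by_contra hcon
      push Not at hcon
      exact hiE (Finset.mem_filter.2 ⟨hi, hcon⟩)) hE0
  obtain ⟨X', _, _, _, _, T', x', F', hT', hue', _, hF', hF2'⟩ :=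
    hW f' fun n _ => (hf2 n).trans_le hk
  exact hf' X' T' x' F' hT' hue' hF' hF2'

/-- For `k ≥ 2` every weak interpolation set of order `k` for the class of uniquely ergodic systems
has upper Banach density less than `1/k`. -/
theorem result (k : ℕ) (hk : 2 ≤ k) (S : Set ℕ) (hS : WeakInterpolationSet.{u} k S) :
    ∃ d : ℝ, IsUpperBanachDensity S d ∧ d < 1 / k := by
  refine ⟨(sub S).lim, isDensity S, ?_⟩
  by_contra hcon
  exact main.{u} k hk S (not_lt.1 hcon) hS

end Pool.Agent.Results.MP_28fd2b_an.DensityBelow
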